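import Pool.Agent.Lib.MP_d898c1_an.Final

/-!
Non-radial conformal metrics on `ℝ^{2m}` with constant Q-curvature and arbitrary volume, `m ≥ 3`.
-/

set_option autoImplicit false

open MeasureTheory
open scoped Laplacian ContDiff
open Pool.Agent.Lib.MP_d898c1_an

namespace Pool.Agent.Results.MP_d898c1_an.NonradialAllVolumes

/-- For every `m ≥ 3` and every `V > 0` the equation `(-Δ)^m u = (2m-1)! e^{2mu}` in `ℝ^{2m}` has a
smooth solution with volume `∫ e^{2mu} = V` which is not radial about any point. -/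
theorem result (m : ℕ) (hm : 3 ≤ m) (V : ℝ) (hV : 0 < V) :
    ∃ u : EuclideanSpace ℝ (Fin (2 * m)) → ℝ, ContDiff ℝ ∞ u ∧
      (∀ x, (fun f : EuclideanSpace ℝ (Fin (2 * m)) → ℝ => -(Δ f))^[m] u x
        = ((2 * m - 1).factorial : ℝ) * Real.exp (2 * m * u x)) ∧
      Integrable (fun x => Real.exp (2 * m * u x)) ∧
      ∫ x, Real.exp (2 * m * u x) = V ∧
      ¬ ∃ (x₀ : EuclideanSpace ℝ (Fin (2 * m))) (φ : ℝ → ℝ), ∀ x, u x = φ ‖x - x₀‖ := by
  have h0 : 0 < 2 * m := by omega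
  have h1 : 1 < 2 * m := by omega
  have h2 : 2 < 2 * m := by omega
  have hon : ON2 (EuclideanSpace.single (⟨0, h0⟩ : Fin (2 * m)) (1 : ℝ))
      (EuclideanSpace.single (⟨1, h1⟩ : Fin (2 * m)) (1 : ℝ)) := by
    refine ⟨by simp, by simp, ?_⟩
    simp [EuclideanSpace.inner_single_left]
  obtain ⟨u, hu1, hu2, hu3, hu4, hu5⟩ := main_abstract hm (by simp) hon
    (e₂ := EuclideanSpace.single (⟨2, h2⟩ : Fin (2 * m)) (1 : ℝ)) (by simp)
    (by simp [EuclideanSpace.inner_single_left]) (by simp [EuclideanSpace.inner_single_left])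
    (A := ((2 * m - 1).factorial : ℝ)) (V := V) (by positivity) hV
  exact ⟨u, hu1, hu2, hu3, hu4, hu5⟩

end Pool.Agent.Results.MP_d898c1_an.NonradialAllVolumes
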